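import Pool.Agent.Helper2.EG.Stmts

set_option autoImplicit false

/-! # The moves -/

namespace Pool.Agent.Helper35.EG

open Pool.Agent.Helper2.EG

theorem mov_pos (hLV : ST_LV) {n j P c m : ℕ} (hn : 0 < n) (h : St n j P c m) : 0 < P :=
  lt_of_lt_of_le (Nat.mul_pos hn (Nat.two_pow_pos j)) (hLV.2.2.1 n j P c m hn h)

/-- the first step -/
theorem mov_first (hS : ST_STEP) (hLV : ST_LV) {n j P : ℕ} (hn : 0 < n) (h : Lv n j P) {a : ℕ}
    (ha : 0 < a) : St n (j + 1) (P * (P + a)) a (P + a) := by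
  have hP : 0 < P := mov_pos hLV hn h
  exact hS n j P 1 P (P + a) a hn h (by omega) (by omega) (by ring)

theorem mov_one (hS : ST_STEP) (hLV : ST_LV) {n : ℕ} (hn : 0 < n) (j P : ℕ) (h : Lv n j P) :
    Lv n (j + 1) (P * (P + 1)) := by
  have hP : 0 < P := mov_pos hLV hn h
  have h1 := mov_first hS hLV hn h one_pos
  exact hLV.1 n (j + 1) (P * (P + 1)) 1 (P + 1) (P * (P + 1)) (Nat.le_mul_of_pos_left _ hP) h1

theorem mov_lv (hS : ST_STEP) (hLV : ST_LV) {n : ℕ} (hn : 0 < n) (s : ℕ) : ∃ P, Lv n s P := by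
  induction s with
  | zero => exact ⟨n, hLV.2.1 n hn⟩
  | succ s ih =>
    obtain ⟨P, hP⟩ := ih
    exact ⟨_, mov_one hS hLV hn s P hP⟩

theorem st_MOV : ST_MOV := by
  intro hF hS hLV hT n hn
  refine ⟨mov_one hS hLV hn, ?_, ?_, ?_, ?_⟩
  · intro j P a b h ha hab he
    have hP : 0 < P := mov_pos hLV hn h
    have h1 := mov_first hS hLV hn h ha
    have h2 := hS n (j + 1) (P * (P + a)) a (P + a) (P + b) 1 hn h1 (by omega) (by omega)
      (by nlinarith [he])
    exact hLV.1 n (j + 2) (P * (P + a) * (P + b)) 1 (P + b) _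
      (Nat.le_mul_of_pos_left _ (Nat.mul_pos hP (by omega))) h2
  · intro j P a b h ha hab he
    have hP : 0 < P := mov_pos hLV hn h
    have h1 := mov_first hS hLV hn h (lt_trans one_pos ha)
    exact hT hF n (j + 1) (P * (P + a)) a (P + a) (P + b) hn h1 (by omega) (by omega) ha
      (by nlinarith [he])
  · intro j P c u h hc hu hcu hcP huP h1 h2
    have hP : 0 < P := mov_pos hLV hn h
    have hs1 := mov_first hS hLV hn h hc
    have hd : c ∣ P * (P + c) + u := by
      have e : P * (P + c) + u = P ^ 2 + u + c * P := by ring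
      rw [e]
      exact dvd_add h1 (Dvd.intro _ rfl)
    obtain ⟨y, hy⟩ := hd
    have hQ : 0 < P * (P + c) := Nat.mul_pos hP (by omega)
    have hy1 : P + c < y := by
      by_contra hlt
      have h3 : c * y ≤ c * (P + c) := Nat.mul_le_mul_left c (not_lt.1 hlt)
      nlinarith [Nat.mul_le_mul hcP hcP]
    have hs2 := hS n (j + 1) (P * (P + c)) c (P + c) y u hn hs1 hy1 (by omega) hy.symm
    have hd2 : u ∣ P * (P + c) * y + 1 := by
      have h3 : u ∣ c * (P * (P + c) * y + 1) := by
        have e : c * (P * (P + c) * y + 1) = ((P * (P + c)) ^ 2 + c) + u * (P * (P + c)) := by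
          calc c * (P * (P + c) * y + 1) = P * (P + c) * (c * y) + c := by ring
            _ = P * (P + c) * (P * (P + c) + u) + c := by rw [← hy]
            _ = _ := by ring
        rw [e]
        exact dvd_add h2 (Dvd.intro _ rfl)
      exact hcu.symm.dvd_of_dvd_mul_left h3
    obtain ⟨z, hz⟩ := hd2
    have hz1 : y < z := by
      by_contra hlt
      have h3 : u * z ≤ u * y := Nat.mul_le_mul_left u (not_lt.1 hlt)
      have h4 : u * y ≤ P * (P + c) * y :=
        Nat.mul_le_mul_right y (huP.trans (Nat.le_mul_of_pos_right _ (by omega)))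
      omega
    exact hT hF n (j + 2) (P * (P + c) * y) u y z hn hs2 hz1 (by omega) hu hz.symm
  · intro s
    obtain ⟨P, hP⟩ := mov_lv hS hLV hn s
    exact (Set.ncard_pos (hF n s hn)).2 (hLV.2.2.2 n s P hn hP)

end Pool.Agent.Helper35.EG
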